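import Mathlib
import Pool.Agent.Work.MP_12b649_co.Bd.B01
import Pool.Agent.Work.MP_12b649_co.OddStmts

/-!
# Derangement representations of graphs of even order: definitions

`H` is always the complement of the graph to be represented: two different vertices are adjacent
in `H` iff their permutations agree somewhere.
-/

namespace Pool.Agent.Work.MP_12b649_co.Ev

open Pool.Agent.Work.MP_12b649_co

section Graph

variable {V : Type}

/-- `H` is represented by permutations of `k` points: different permutations, and two vertices are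
adjacent in `H` iff the permutations agree somewhere. -/
def Rep (H : SimpleGraph V) (k : ℕ) : Prop :=
  ∃ π : V → Equiv.Perm (Fin k), Function.Injective π ∧
    ∀ u v, u ≠ v → (H.Adj u v ↔ ∃ i, π u i = π v i)

variable (H : SimpleGraph V)

/-- `x` distinguishes `p` and `q`. -/
def D (p q x : V) : Prop := ¬ (H.Adj p x ↔ H.Adj q x)

/-- `pq` is an edge whose ends are not closed twins. -/
def NT (p q : V) : Prop := H.Adj p q ∧ ∃ x, x ≠ p ∧ x ≠ q ∧ D H p q x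

/-- The closed neighbourhoods of `u` and `v` are equal (closed twins, if `u ≠ v`). -/
def Tw (u v : V) : Prop := ∀ x, (x = u ∨ H.Adj u x) ↔ (x = v ∨ H.Adj v x)

/-- There is an induced path `a b c`, i.e. `H` is not a disjoint union of cliques. -/
def NC : Prop := ∃ a b c, a ≠ c ∧ H.Adj a b ∧ H.Adj b c ∧ ¬ H.Adj a c

/-- There is a good pair of disjoint edges (tool T1). -/
def T1G : Prop := ∃ p q p' q' : V, p ≠ p' ∧ p ≠ q' ∧ q ≠ p' ∧ q ≠ q' ∧ NT H p q ∧ NT H p' q' ∧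
  (D H p q p' ↔ D H p q q') ∧
  ((∃ x, x ≠ p ∧ x ≠ q ∧ x ≠ p' ∧ x ≠ q' ∧
      ¬ ((D H p q x ↔ D H p q p') ↔ (D H p' q' x ↔ D H p' q' p))) ∨
   (∀ x, x ≠ p → x ≠ q → x ≠ p' → x ≠ q' →
      ((D H p q x ↔ D H p q p') ∨ (D H p' q' x ↔ D H p' q' p))))

/-- The configuration of tool Z. -/
def ZG : Prop := ∃ x x' p q : V, x ≠ x' ∧ p ≠ x ∧ p ≠ x' ∧ q ≠ x ∧ q ≠ x' ∧ H.Adj p q ∧
  (∀ a b, a ≠ b → a ≠ x' → b ≠ x' → H.Adj x a → H.Adj x b → H.Adj a b) ∧
  (∀ a, a ≠ x → H.Adj x' a → H.Adj x a) ∧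
  ¬ (H.Adj x p ∧ H.Adj x q) ∧
  (H.Adj x p ∨ H.Adj x q ∨ ∃ t, t ≠ x ∧ t ≠ x' ∧ t ≠ p ∧ t ≠ q ∧ D H p q t)

/-- `1` if the statement holds and `0` otherwise. -/
noncomputable def ind (P : Prop) : ℕ := by classical exact if P then 1 else 0

/-- Number of vertices outside `p, q, u, u'` which distinguish `p` and `q`. -/
noncomputable def n1 (p q u u' : V) : ℕ :=
  Nat.card {v // v ≠ p ∧ v ≠ q ∧ v ≠ u ∧ v ≠ u' ∧ D H p q v}

/-- Number of vertices outside `p, q, u, u'` which do not distinguish `p` and `q`. -/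
noncomputable def n0 (p q u u' : V) : ℕ :=
  Nat.card {v // v ≠ p ∧ v ≠ q ∧ v ≠ u ∧ v ≠ u' ∧ ¬ D H p q v}

/-- The configuration of tool C1. -/
def C1G : Prop := ∃ u u' p q w r : V, u ≠ u' ∧ Tw H u u' ∧ p ≠ u ∧ p ≠ u' ∧ q ≠ u ∧ q ≠ u' ∧
  NT H p q ∧ H.Adj u w ∧ w ≠ u' ∧ w ≠ p ∧ w ≠ q ∧ r ≠ u ∧ ¬ H.Adj u r ∧ r ≠ p ∧ r ≠ q ∧
  2 * ind (D H p q w) + 2 * ind (D H p q r) + ind (D H p q u) ≤ n1 H p q u u' ∧
  2 * ind (¬ D H p q w) + 2 * ind (¬ D H p q r) + ind (¬ D H p q u) ≤ n0 H p q u u'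

/-- `H` is a complete bipartite graph with two nonempty parts. -/
def SpM2 : Prop := ∃ χ : V → Bool, (∃ v, χ v = true) ∧ (∃ v, χ v = false) ∧
  ∀ u v, H.Adj u v ↔ χ u ≠ χ v

/-- `H` is a complete tripartite graph with at most one singleton part. -/
def SpM3 : Prop := ∃ χ : V → Fin 3, (∀ c, ∃ v, χ v = c) ∧ (∀ u v, H.Adj u v ↔ χ u ≠ χ v) ∧
  ∀ u v, χ u ≠ χ v → (∃ w, w ≠ u ∧ χ w = χ u) ∨ (∃ w, w ≠ v ∧ χ w = χ v)

/-- `H` is a complete bipartite graph plus an isolated vertex. -/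
def SpM2z : Prop := ∃ (z : V) (χ : V → Bool), (∃ v, v ≠ z ∧ χ v = true) ∧
  (∃ v, v ≠ z ∧ χ v = false) ∧ ∀ u v, H.Adj u v ↔ (u ≠ z ∧ v ≠ z ∧ χ u ≠ χ v)

/-- `H` is a complete tripartite graph (at most one singleton part) plus an isolated vertex. -/
def SpM3z : Prop := ∃ (z : V) (χ : V → Fin 3), (∀ c, ∃ v, v ≠ z ∧ χ v = c) ∧
  (∀ u v, H.Adj u v ↔ (u ≠ z ∧ v ≠ z ∧ χ u ≠ χ v)) ∧
  ∀ u v, u ≠ z → v ≠ z → χ u ≠ χ v →
    (∃ w, w ≠ z ∧ w ≠ u ∧ χ w = χ u) ∨ (∃ w, w ≠ z ∧ w ≠ v ∧ χ w = χ v)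

/-- `H` is a complete graph minus an edge. -/
def SpKe : Prop := ∃ a b : V, a ≠ b ∧ ∀ u v, H.Adj u v ↔ (u ≠ v ∧ ¬ (u = a ∧ v = b) ∧
  ¬ (u = b ∧ v = a))

end Graph

section Design

variable {N : ℕ} (K : Kotzig N)

/-- `t` and `t'` are the two neighbours of `s` in the same row. -/
def Par (s t t' : K.V) : Prop :=
  ∃ j, (K.f j s = t ∧ K.f j t' = s) ∨ (K.f j s = t' ∧ K.f j t = s)

/-- The structure used by tool T1: a path `g 0, g 1, ..., g m, g (m+1)` whose links are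
alternately pairs of neighbours of `g (m+1)` and of `g 0`; all the other symbols are
in pairs common to `g 0` and `g (m+1)`. -/
def PathStr (m : ℕ) : Prop :=
  ∃ g : ℕ → K.V, (∀ i j, i ≤ m + 1 → j ≤ m + 1 → g i = g j → i = j) ∧
    (∀ i, i ≤ m → Even i → Par K (g (m + 1)) (g i) (g (i + 1))) ∧
    (∀ i, i ≤ m → Odd i → Par K (g 0) (g i) (g (i + 1))) ∧
    ∀ t, (∀ i, i ≤ m + 1 → t ≠ g i) →
      ∃ t', (∀ i, i ≤ m + 1 → t' ≠ g i) ∧ t' ≠ t ∧ Par K (g 0) t t' ∧ Par K (g (m + 1)) t t'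

/-- The structure used by tool C1. -/
def XStr : Prop :=
  ∃ o s a t s1 po ps pa pt : K.V, [o, s, a, t, s1, po, ps, pa, pt].Nodup ∧
    K.col o a = K.col s s ∧ K.col s t = K.col o o ∧
    (∃ j, (K.f j o = a ∨ K.f j a = o) ∧ (K.f j s = t ∨ K.f j t = s)) ∧
    Par K s1 o po ∧ Par K s1 s ps ∧ Par K s1 a pa ∧ Par K s1 t pt

/-- The standard row of the vertex `u` at the symbol `φ u` with the bits `τ`: the value `none`
is in the diagonal column, the value `(j, b)` is in the column of the edge of row `j` that leaves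
`φ u` if `b = τ j u`, and in the column of the edge that enters `φ u` otherwise. -/
def srow {A : Type} (φ : A → K.V) (τ : K.J → A → Bool) (u : A) : Option (K.J × Bool) → K.C
  | none => K.col (φ u) (φ u)
  | some p => K.col (φ u) (K.nb (φ u) (p.1, decide (p.2 = τ p.1 u)))

end Design

end Pool.Agent.Work.MP_12b649_co.Ev
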