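import Mathlib
import Pool.Agent.Work.MP_12b649_co.Ev.Defs

/-!
# The pairs of neighbours of a symbol
-/

namespace Pool.Agent.Work.MP_12b649_co.Ev

open Pool.Agent.Work.MP_12b649_co

variable {N : ℕ} (K : Kotzig N)

lemma par_symm {s t t' : K.V} (h : Par K s t t') : Par K s t' t := by
  obtain ⟨j, h | h⟩ := h
  · exact ⟨j, Or.inr h⟩
  · exact ⟨j, Or.inl h⟩

lemma par_ne_left {s t t' : K.V} (h : Par K s t t') : t ≠ s := by
  obtain ⟨j, h | h⟩ := h
  · rw [← h.1]; exact K.f_ne j s
  · intro h'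
    rw [h'] at h
    exact K.f_ne j s h.2

lemma par_ne_right {s t t' : K.V} (h : Par K s t t') : t' ≠ s := par_ne_left K (par_symm K h)

/-- Every symbol different from `s` has a partner. -/
lemma par_exists {s t : K.V} (h : t ≠ s) : ∃ t', Par K s t t' := by
  obtain ⟨j, h1 | h1⟩ := K.cover s t h.symm
  · exact ⟨(K.f j).symm s, j, Or.inl ⟨h1, by rw [Equiv.apply_symm_apply]⟩⟩
  · exact ⟨K.f j s, j, Or.inr ⟨rfl, h1⟩⟩

/-- The partner is unique. -/
lemma par_unique {s t t' t'' : K.V} (h : Par K s t t') (h' : Par K s t t'') : t' = t'' := by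
  have key : ∀ {x y}, Par K s x y → ∃ j b, x = K.nb s (j, b) ∧ y = K.nb s (j, !b) := by
    rintro x y ⟨j, h | h⟩
    · refine ⟨j, true, ?_, ?_⟩
      · simp [Kotzig.nb, h.1]
      · simp [Kotzig.nb, ← h.2]
    · refine ⟨j, false, ?_, ?_⟩
      · simp [Kotzig.nb, ← h.2]
      · simp [Kotzig.nb, h.1]
  obtain ⟨j, b, e1, e2⟩ := key h
  obtain ⟨j', b', e1', e2'⟩ := key h'
  have := K.nb_injective s (e1.symm.trans e1')
  simp only [Prod.mk.injEq] at this
  rw [e2, e2', this.1, this.2]

/-- The two neighbours of a symbol in a row are different. -/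
lemma par_ne {s t t' : K.V} (h : Par K s t t') : t ≠ t' := by
  have key : ∀ {x y}, Par K s x y → ∃ j b, x = K.nb s (j, b) ∧ y = K.nb s (j, !b) := by
    rintro x y ⟨j, h | h⟩
    · refine ⟨j, true, ?_, ?_⟩
      · simp [Kotzig.nb, h.1]
      · simp [Kotzig.nb, ← h.2]
    · refine ⟨j, false, ?_, ?_⟩
      · simp [Kotzig.nb, ← h.2]
      · simp [Kotzig.nb, h.1]
  obtain ⟨j, b, e1, e2⟩ := key h
  intro h1
  have := K.nb_injective s (e1.symm.trans (h1.trans e2))
  simp at this

open Classical in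
/-- The partner of `t` with respect to `s` (and `s` if `t = s`). -/
noncomputable def pr (s t : K.V) : K.V := if h : t ≠ s then (par_exists K h).choose else s

lemma pr_self (s : K.V) : pr K s s = s := by simp [pr]

lemma pr_par {s t : K.V} (h : t ≠ s) : Par K s t (pr K s t) := by
  unfold pr
  rw [dif_pos h]
  exact (par_exists K h).choose_spec

lemma pr_eq {s t t' : K.V} (h : Par K s t t') : pr K s t = t' :=
  par_unique K (pr_par K (par_ne_left K h)) h

lemma pr_pr (s t : K.V) : pr K s (pr K s t) = t := by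
  by_cases h : t = s
  · rw [h, pr_self, pr_self]
  · exact pr_eq K (par_symm K (pr_par K h))

lemma pr_ne {s t : K.V} (h : t ≠ s) : pr K s t ≠ t := (par_ne K (pr_par K h)).symm

lemma pr_ne_s {s t : K.V} (h : t ≠ s) : pr K s t ≠ s := par_ne_right K (pr_par K h)

end Pool.Agent.Work.MP_12b649_co.Ev
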